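import Pool.Agent.H494R3.NK.Stmts

set_option autoImplicit false

/-!
Equality of classes of idempotents of the ring.
-/

namespace Pool.Agent.H494R3.NK

universe u

theorem eqZ_eq : TaskEq.{u} := by
  intro R _ p q hp hq
  constructor
  · intro h
    obtain ⟨x, y, hxy, hyx⟩ := VV.mk_eq.1 h
    have h1 : x 0 0 * y 0 0 = p := by
      have := congrFun (congrFun hxy 0) 0
      rw [Matrix.mul_apply] at this
      simpa [s1] using this
    have h2 : y 0 0 * x 0 0 = q := by
      have := congrFun (congrFun hyx 0) 0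
      rw [Matrix.mul_apply] at this
      simpa [s1] using this
    obtain ⟨s, hs⟩ : ∃ s : R, s = x 0 0 := ⟨_, rfl⟩
    obtain ⟨t, ht⟩ : ∃ t : R, t = y 0 0 := ⟨_, rfl⟩
    rw [← hs, ← ht] at h1 h2
    have e1 : p * s = s * q := by rw [← h1, ← h2, mul_assoc]
    have e2 : q * t = t * p := by rw [← h1, ← h2, mul_assoc]
    refine ⟨p * s, t * p, ?_, ?_, ?_, ?_, ?_, ?_⟩
    · rw [mul_assoc, ← mul_assoc s, h1, hp, hp]
    · rw [mul_assoc, ← mul_assoc p, hp, e1, ← mul_assoc, h2, hq]
    · rw [← mul_assoc, hp]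
    · rw [e1, mul_assoc, hq]
    · rw [← e2, ← mul_assoc, hq]
    · rw [mul_assoc, hp]
  · rintro ⟨s, t, hst, hts, _⟩
    apply VV.mk_eq.2
    refine ⟨s1 s, s1 t, ?_, ?_⟩
    · apply Matrix.ext
      intro i j
      rw [Matrix.mul_apply]
      simp [s1, hst]
    · apply Matrix.ext
      intro i j
      rw [Matrix.mul_apply]
      simp [s1, hts]

theorem eqZ_zero : TaskZero.{u} := by
  intro R _ p hp
  constructor
  · intro h
    obtain ⟨x, y, hxy, _⟩ := VV.mk_eq.1 h
    have := congrFun (congrFun hxy 0) 0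
    rw [Matrix.mul_apply] at this
    have : IsEmpty (Fin (Idem.zero R).size) := inferInstanceAs (IsEmpty (Fin 0))
    rw [Finset.sum_of_isEmpty] at *
    exact Eq.symm ‹(0 : R) = _›
  · rintro rfl
    apply VV.mk_eq.2
    show Eqv (s1 0) (Idem.zero R).mat
    have h1 : (s1 0 : Matrix (Fin 1) (Fin 1) R) = 0 := rfl
    have h2 : (Idem.zero R).mat = 0 := by
      apply Matrix.ext
      intro i
      exact i.elim0
    rw [h1, h2]
    exact Eqv.zero

end Pool.Agent.H494R3.NK
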