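import Pool.Agent.H494R3.NK.StarAsm
import Pool.Agent.H36R3.NK.Dom

set_option autoImplicit false

/-!
Idempotent matrices whose entries are limits of elements of the ideal generated by `r`.
-/

namespace Pool.Agent.H494R3.NK

universe u

section
attribute [local instance] Matrix.linftyOpNormedRing

theorem mat_unit {U : Type u} [NormedRing U] [CompleteSpace U] {n : ℕ}
    (d : Matrix (Fin n) (Fin n) U) (h : ‖d‖ < 1) : IsUnit (1 - d) := by
  have h1 : @CompleteSpace (Matrix (Fin n) (Fin n) U)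
    (Matrix.instUniformSpace (Fin n) (Fin n) U) := inferInstance
  have h2 : @CompleteSpace (Matrix (Fin n) (Fin n) U)
    (Matrix.linftyOpNormedRing (n := Fin n)
      (α := U)).toMetricSpace.toPseudoMetricSpace.toUniformSpace := h1
  have h3 : @HasSummableGeomSeries (Matrix (Fin n) (Fin n) U) (Matrix.linftyOpNormedRing) := by
    exact @instHasSummableGeomSeriesOfCompleteSpace _ _ h2
  exact @isUnit_one_sub_of_norm_lt_one _ _ h3 d h

theorem mat_norm {U : Type u} [NormedRing U] {n : ℕ}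
    (d : Matrix (Fin n) (Fin n) U) (δ : ℝ) (hδ : 0 ≤ δ) (h : ∀ i j, ‖d i j‖ ≤ δ) :
    ‖d‖ ≤ n * δ := by
  rw [Matrix.linfty_opNorm_def]
  have h1 : ((Finset.univ : Finset (Fin n)).sup fun i => ∑ j, ‖d i j‖₊) ≤
      (⟨n * δ, by positivity⟩ : NNReal) := by
    apply Finset.sup_le
    intro i _
    rw [← NNReal.coe_le_coe]
    push_cast
    calc ∑ j, ‖d i j‖ ≤ ∑ _j : Fin n, δ := Finset.sum_le_sum fun j _ => h i j
      _ = n * δ := by simp
  exact_mod_cast h1

theorem fac {R : Type u} [NonUnitalRing R] {r : R} {n : ℕ} (K : Matrix (Fin n) (Fin n) R)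
    (hK : ∀ i j, K i j ∈ Ir r) (s : Finset (Fin n × Fin n)) :
    ∃ (m : ℕ) (X : Fin n → Fin m → R) (Y : Fin m → Fin n → R),
      ∀ i j, ∑ k, X i k * r * Y k j = if (i, j) ∈ s then K i j else 0 := by
  classical
  induction s using Finset.induction_on with
  | empty => exact ⟨0, fun _ => Fin.elim0, Fin.elim0, fun i j => by simp⟩
  | insert p s hp ih =>
    obtain ⟨m, X, Y, h⟩ := ih
    obtain ⟨m', x, y, hxy⟩ := hK p.1 p.2
    refine ⟨m + m', fun i => Fin.append (X i) (fun k => if i = p.1 then x k else 0),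
      fun k j => Fin.append (fun k => Y k j) (fun k => if j = p.2 then y k else 0) k, ?_⟩
    intro i j
    rw [Fin.sum_univ_add]
    simp only [Fin.append_left, Fin.append_right]
    rw [h]
    by_cases hi : i = p.1
    · by_cases hj : j = p.2
      · have hij : (i, j) = p := Prod.ext hi hj
        have h1 : (i, j) ∉ s := hij ▸ hp
        rw [if_neg h1, if_pos (by rw [hij]; exact Finset.mem_insert_self _ _), zero_add]
        simp only [if_pos hi, if_pos hj]
        rw [← hxy, hi, hj]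
      · have hij : (i, j) ≠ p := fun h => hj (congrArg Prod.snd h)
        simp [hj, hij]
    · have hij : (i, j) ≠ p := fun h => hi (congrArg Prod.fst h)
      simp [hi, hij]

theorem matZ : TaskMat.{u} := by
  intro A _ r hr n e he hcl
  obtain ⟨φ, hφ⟩ : ∃ φ : A →ₙ+* Unitization ℂ A, ∀ a, φ a = (a : Unitization ℂ A) :=
    ⟨{ toFun := fun a => (a : Unitization ℂ A)
       map_mul' := fun a b => Unitization.inr_mul ℂ a b
       map_zero' := Unitization.inr_zero ℂ
       map_add' := fun a b => Unitization.inr_add ℂ a b }, fun _ => rfl⟩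
  have hinj : Function.Injective φ := by
    intro a b h
    rw [hφ, hφ] at h
    exact Unitization.inr_injective h
  obtain ⟨E, hE⟩ : ∃ E : Matrix (Fin n) (Fin n) (Unitization ℂ A), E = e.map φ := ⟨_, rfl⟩
  have hEE : E * E = E := by rw [hE, ← Matrix.map_mul, he]
  obtain ⟨δ, hδ0, hδ⟩ : ∃ δ : ℝ, 0 < δ ∧ ‖E‖ * (n * δ) * ‖E‖ < 1 := by
    refine ⟨1 / ((‖E‖ * n * ‖E‖) + 1), by positivity, ?_⟩
    have : ‖E‖ * (n * (1 / ((‖E‖ * n * ‖E‖) + 1))) * ‖E‖ =
        (‖E‖ * n * ‖E‖) / ((‖E‖ * n * ‖E‖) + 1) := by ring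
    rw [this, div_lt_one (by positivity)]
    linarith
  have hex : ∀ i j, ∃ k ∈ Ir r, ‖e i j - k‖ < δ := by
    intro i j
    obtain ⟨k, hk, h⟩ := Metric.mem_closure_iff.1 (hcl i j) δ hδ0
    exact ⟨k, hk, by rwa [dist_eq_norm] at h⟩
  choose K hK hKe using hex
  obtain ⟨m, X, Y, hXY⟩ := fac K hK Finset.univ
  simp only [Finset.mem_univ, if_true] at hXY
  obtain ⟨Xm, hXm⟩ : ∃ Xm : Matrix (Fin n) (Fin m) A, Xm = X := ⟨_, rfl⟩
  obtain ⟨Ym, hYm⟩ : ∃ Ym : Matrix (Fin m) (Fin n) A, Ym = Y := ⟨_, rfl⟩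
  obtain ⟨Km, hKm⟩ : ∃ Km : Matrix (Fin n) (Fin n) A, Km = K := ⟨_, rfl⟩
  obtain ⟨D, hD⟩ : ∃ D : Matrix (Fin m) (Fin m) A, D = Matrix.diagonal (fun _ => r) := ⟨_, rfl⟩
  have hKD : Xm * D * Ym = Km := by
    apply Matrix.ext
    intro i j
    rw [Matrix.mul_apply, hKm, ← hXY i j, hD]
    refine Finset.sum_congr rfl fun k _ => ?_
    rw [Matrix.mul_diagonal, hXm, hYm]
  obtain ⟨Kh, hKh⟩ : ∃ Kh : Matrix (Fin n) (Fin n) (Unitization ℂ A), Kh = Km.map φ := ⟨_, rfl⟩
  have hn1 : ‖E - Kh‖ ≤ n * δ := by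
    apply mat_norm _ _ hδ0.le
    intro i j
    have : (E - Kh) i j = ((e i j - K i j : A) : Unitization ℂ A) := by
      rw [hE, hKh, hKm]
      show φ (e i j) - φ (K i j) = _
      rw [← map_sub, hφ]
    rw [this, Unitization.norm_inr]
    exact (hKe i j).le
  have hd : ‖E * (E - Kh) * E‖ < 1 := by
    calc ‖E * (E - Kh) * E‖ ≤ ‖E * (E - Kh)‖ * ‖E‖ := norm_mul_le _ _
      _ ≤ (‖E‖ * ‖E - Kh‖) * ‖E‖ := by gcongr; exact norm_mul_le _ _
      _ ≤ ‖E‖ * (n * δ) * ‖E‖ := by gcongr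
      _ < 1 := hδ
  obtain ⟨v, hv⟩ := mat_unit _ hd
  have hEv : E * (v : Matrix (Fin n) (Fin n) (Unitization ℂ A)) = E * Kh * E := by
    rw [hv]
    calc E * (1 - E * (E - Kh) * E) = E - ((E * E) * E * E - (E * E) * Kh * E) := by
          noncomm_ring
      _ = E * Kh * E := by simp only [hEE]; abel
  obtain ⟨W, hW⟩ : ∃ W : Matrix (Fin n) (Fin n) (Unitization ℂ A),
      W = ((v⁻¹ : (Matrix (Fin n) (Fin n) (Unitization ℂ A))ˣ) :
        Matrix (Fin n) (Fin n) (Unitization ℂ A)) := ⟨_, rfl⟩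
  have hEW : E = E * Kh * E * W := by
    rw [← hEv, Matrix.mul_assoc, hW]
    have : (v : Matrix (Fin n) (Fin n) (Unitization ℂ A)) *
      ((v⁻¹ : (Matrix (Fin n) (Fin n) (Unitization ℂ A))ˣ) :
        Matrix (Fin n) (Fin n) (Unitization ℂ A)) = 1 := Units.mul_inv v
    rw [this, Matrix.mul_one]
  obtain ⟨Y', hY'⟩ : ∃ Y' : Matrix (Fin m) (Fin n) (Unitization ℂ A),
      Y' = Ym.map φ * (E * W) := ⟨_, rfl⟩
  obtain ⟨Y2, hY2⟩ : ∃ Y2 : Matrix (Fin m) (Fin n) A, Y2 = fun i j => (Y' i j).snd := ⟨_, rfl⟩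
  have hY2' : Y2.map φ = Y' := by
    apply Matrix.ext
    intro i j
    show φ (Y2 i j) = Y' i j
    rw [hφ, hY2]
    apply Unitization.ext
    · have : (Y' i j).fst = 0 := by
        rw [hY', Matrix.mul_apply]
        have h1 : ∀ (s : Finset (Fin n)) (f : Fin n → Unitization ℂ A), (∀ k, (f k).fst = 0) →
            (∑ k ∈ s, f k).fst = 0 := by
          intro s f hf
          classical
          induction s using Finset.induction_on with
          | empty => simp
          | insert a s ha ih => rw [Finset.sum_insert ha, Unitization.fst_add, hf, ih, add_zero]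
        apply h1
        intro k
        show (φ (Ym i k) * _).fst = 0
        rw [hφ, Unitization.fst_mul, Unitization.fst_inr, zero_mul]
      rw [this, Unitization.fst_inr]
    · rw [Unitization.snd_inr]
  have hfin : e = ((e * Xm) * D) * Y2 := by
    apply Matrix.map_injective hinj
    show e.map φ = (((e * Xm) * D) * Y2).map φ
    rw [Matrix.map_mul, Matrix.map_mul, Matrix.map_mul, hY2', hY', ← hE]
    have h2 : Xm.map φ * D.map φ * Ym.map φ = Kh := by
      rw [← Matrix.map_mul, ← Matrix.map_mul, hKD, hKh]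
    calc E = E * Kh * E * W := hEW
      _ = E * (Xm.map φ * D.map φ * Ym.map φ) * E * W := by rw [h2]
      _ = _ := by simp only [Matrix.mul_assoc]
  obtain ⟨z, hz⟩ := Pool.Agent.H36R3.NK.taskDom A r hr n m e he (e * Xm) Y2 (by rw [← hD]; exact hfin)
  exact ⟨z, m, hz⟩

end

end Pool.Agent.H494R3.NK
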