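import Pool.Agent.H494R3.NK.Stmts
import Pool.Agent.H494R3.LD.C2

set_option autoImplicit false

/-!
Assembly: no C*-algebra of real rank zero has the property `Toep`.
-/

namespace Pool.Agent.H494R3.NK

universe u

section
variable {A : Type u} [NonUnitalCStarAlgebra A]

theorem Ir.zero (r : A) : (0 : A) ∈ Ir r := ⟨0, Fin.elim0, Fin.elim0, by simp⟩

theorem Ir.add {r x y : A} (hx : x ∈ Ir r) (hy : y ∈ Ir r) : x + y ∈ Ir r := by
  obtain ⟨m, a, b, rfl⟩ := hx
  obtain ⟨n, c, d, rfl⟩ := hy
  exact ⟨m + n, Fin.append a c, Fin.append b d, by simp [Fin.sum_univ_add]⟩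

theorem Ir.smul {r x : A} (c : ℂ) (hx : x ∈ Ir r) : c • x ∈ Ir r := by
  obtain ⟨m, a, b, rfl⟩ := hx
  exact ⟨m, fun i => c • a i, b, by simp [Finset.smul_sum, smul_mul_assoc]⟩

theorem Ir.sum {r : A} {n : ℕ} (x : Fin n → A) (h : ∀ i, x i ∈ Ir r) : ∑ i, x i ∈ Ir r := by
  classical
  induction (Finset.univ : Finset (Fin n)) using Finset.induction_on with
  | empty => rw [Finset.sum_empty]; exact Ir.zero r
  | insert a s ha ih => rw [Finset.sum_insert ha]; exact Ir.add (h a) ih

end

theorem starAsm (hEq : TaskEq.{u}) (hSplit : TaskSplit.{u}) (hSum : TaskSum.{u})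
    (hZero : TaskZero.{u}) (hMem : TaskMem.{u}) (hDom : TaskDom.{u}) (hProj : TaskProj.{u})
    (hDense : TaskDense.{u}) (hMat : TaskMat.{u}) (hCorner : TaskCornerSelf.{u})
    (hIndex : TaskIndex.{u}) : TaskCStar.{u} := by
  intro A _ hr ⟨a, v, ha0, hatom, hva, hv, hdich, hnot⟩
  -- equivalence of idempotents with the same range
  have heqv : ∀ (e p : A) (he : e * e = e) (hp : p * p = p), p * e = e → e * p = p →
      cl he = cl hp := by
    intro e p he hp h1 h2
    rw [hEq]
    exact ⟨p, e, h1, h2, h2, hp, h1, he⟩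
  have hmem0 : ∀ (r : A) (hrr : r * r = r), cl hrr = a → ∀ (f : A) (hf : f * f = f),
      (∃ m : ℕ, cl hf = m • a) → f ∈ Ir r := by
    intro r hrr hra f hf ⟨m, hm⟩
    apply hMem A r f hrr hf 0 m
    rw [add_zero, hm, hra]
  -- a nonzero element
  obtain ⟨f0, hf00, hf0f, hf0s⟩ : ∃ f : A, f ≠ 0 ∧ f * f = f ∧ star f = f := by
    have hne : ∃ x : A, x ≠ 0 := by
      by_contra hcon
      push Not at hcon
      apply ha0
      obtain ⟨⟨n, e, he⟩, rfl⟩ : ∃ g : Idem A, a = VV.mk g := by
        obtain ⟨g, hg⟩ := Quotient.exists_rep a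
        exact ⟨g, hg.symm⟩
      apply VV.mk_eq.2
      have : e = 0 := by
        apply Matrix.ext
        intro i j
        exact hcon _
      show Eqv e _
      rw [this]
      exact Eqv.zero
    obtain ⟨x, hx⟩ := hne
    have h1 : star (star x * x) = star x * x := by rw [star_mul, star_star]
    have h2 : star x * x ≠ 0 := fun h => hx ((CStarRing.star_mul_self_eq_zero_iff x).1 h)
    obtain ⟨f, hf, hff, hfs, _, _⟩ := LD.exists_proj (A := A) hr h1 h2
    exact ⟨f, hf, hff, hfs⟩
  -- a minimal projection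
  obtain ⟨r1, hr1, hr1a⟩ : ∃ (r : A) (hr : r * r = r), cl hr = a := by
    have h1 : ∃ y, cl hf0f = a + y := by
      rcases hdich (cl hf0f) with ⟨m, hm⟩ | ⟨x, hx⟩
      · cases m with
        | zero =>
          exfalso
          rw [zero_smul] at hm
          exact hf00 ((hZero A f0 hf0f).1 hm)
        | succ m => exact ⟨m • a, by rw [hm, add_smul, one_smul, add_comm]⟩
      · refine ⟨v + x, ?_⟩
        rw [hx, ← add_assoc, add_comm a v, hva]
    obtain ⟨y, hy⟩ := h1
    obtain ⟨e, f, he, hf, _, _, _, h4, _⟩ := hSplit A f0 hf0f a y hy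
    exact ⟨e, he, h4⟩
  obtain ⟨r, hrr, hrs, h1, h2⟩ := hProj A r1 hr1
  have hra : cl hrr = a := by rw [← heqv r1 r hr1 hrr h1 h2, hr1a]
  have hmin : ∀ f : A, f * f = f → star f = f → r * f = f → f = 0 ∨ f = r := by
    intro f hf hfs hrf
    have hfr : f * r = f := by
      have := congrArg star hrf
      rwa [star_mul, hfs, hrs] at this
    have hd : (r - f) * (r - f) = r - f := by
      rw [sub_mul, mul_sub, mul_sub, hrr, hrf, hfr, hf]; abel
    have o1 : f * (r - f) = 0 := by rw [mul_sub, hfr, hf, sub_self]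
    have o2 : (r - f) * f = 0 := by rw [sub_mul, hrf, hf, sub_self]
    have e1 : f + (r - f) = r := by abel
    have h3 := hSum A f (r - f) hf hd (by rw [e1, hrr]) o1 o2
    have h4 : cl hf + cl hd = a := by
      rw [← h3, ← hra]
      congr 1
    rcases hatom _ _ h4 with h | h
    · left; exact (hZero A f hf).1 h
    · right
      have := (hZero A (r - f) hd).1 h
      exact (sub_eq_zero.1 this).symm
  have hsc : ∀ x : A, ∃ c : ℂ, r * x * r = c • r := fun x =>
    LD.min_scalar (A := A) hr hrr hrs hmin x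
  -- an infinite projection in `A`
  obtain ⟨q, hqq, hqs, hq⟩ : ∃ (q : A) (hq : q * q = q), star q = q ∧
      ¬ ∃ m : ℕ, cl hq = m • a := by
    by_contra hcon
    push Not at hcon
    have hall : ∀ x : A, x ∈ closure (Ir r) := by
      intro x
      rw [Metric.mem_closure_iff]
      intro ε hε
      obtain ⟨n, f, c, hf, hx⟩ := hDense A hr x ε hε
      refine ⟨_, ?_, by rw [dist_eq_norm]; exact hx⟩
      exact Ir.sum _ fun i => Ir.smul _ (hmem0 r hrr hra (f i) (hf i).1
        (hcon (f i) (hf i).1 (hf i).2))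
    obtain ⟨⟨n, e, he⟩, hg⟩ : ∃ g : Idem A, v = VV.mk g := by
      obtain ⟨g, hg⟩ := Quotient.exists_rep v
      exact ⟨g, hg.symm⟩
    obtain ⟨z, m, hz⟩ := hMat A r hrr n e he (fun i j => hall _)
    apply hnot m z
    rw [hg, ← hra]
    exact hz
  obtain ⟨p1, hp1, hp1v⟩ : ∃ (p : A) (hp : p * p = p), cl hp = v := by
    rcases hdich (cl hqq) with ⟨m, hm⟩ | ⟨x, hx⟩
    · exact absurd ⟨m, hm⟩ hq
    · obtain ⟨e, f, he, hf, _, _, _, h4, _⟩ := hSplit A q hqq v x hx
      exact ⟨e, he, h4⟩
  obtain ⟨p, hpp, hps, h3, h4⟩ := hProj A p1 hp1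
  have hpv : cl hpp = v := by rw [← heqv p1 p hp1 hpp h3 h4, hp1v]
  have hpI : p ∉ Ir r := by
    rintro ⟨m, x, y, hxy⟩
    obtain ⟨z, hz⟩ := hDom A r hrr 1 m (s1 p) (s1_idem hpp) (fun _ j => x j) (fun j _ => y j) (by
      apply Matrix.ext
      intro i j
      rw [Matrix.mul_apply]
      simp only [Matrix.mul_diagonal]
      exact hxy)
    apply hnot m z
    rw [← hpv, ← hra]
    exact hz
  have hfin : ∀ f : A, f * f = f → p * f = f → f * p = f → f ∈ Ir r ∨ p - f ∈ Ir r := by
    intro f hf hpf hfp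
    have hd : (p - f) * (p - f) = p - f := by
      rw [sub_mul, mul_sub, mul_sub, hpp, hpf, hfp, hf]; abel
    have o1 : f * (p - f) = 0 := by rw [mul_sub, hfp, hf, sub_self]
    have o2 : (p - f) * f = 0 := by rw [sub_mul, hpf, hf, sub_self]
    have e1 : f + (p - f) = p := by abel
    have h3 := hSum A f (p - f) hf hd (by rw [e1, hpp]) o1 o2
    have h4 : cl hf + cl hd = v := by
      rw [← h3, ← hpv]
      congr 1
    rcases hv _ _ h4 with h | h
    · left; exact hmem0 r hrr hra f hf h
    · right; exact hmem0 r hrr hra _ hd h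
  -- approximation in the corner
  have hself := hCorner A hr r p hrr hpp hps hpI hfin
  have happ : ∀ x : A, p * x = x → x * p = x → ∀ ε : ℝ, 0 < ε → ∃ (c : ℂ) (k : A), k ∈ Ir r ∧
      p * k = k ∧ k * p = k ∧ ‖x - (c • p + k)‖ < ε := by
    intro x hpx hxp ε hε
    have hsp : star x * p = star x := by
      have := congrArg star hpx
      rwa [star_mul, hps] at this
    have hps' : p * star x = star x := by
      have := congrArg star hxp
      rwa [star_mul, hps] at this
    obtain ⟨c, k, hk, hpk, hkp, hc⟩ := hself ((1 / 2 : ℂ) • (x + star x)) (by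
        rw [star_smul, star_add, star_star, add_comm]
        simp) (by rw [mul_smul_comm, mul_add, hpx, hps']) (by
        rw [smul_mul_assoc, add_mul, hxp, hsp]) (ε / 2) (by linarith)
    obtain ⟨d, l, hl, hpl, hlp, hd⟩ := hself ((Complex.I / 2 : ℂ) • (x - star x)) (by
        rw [star_smul, star_sub, star_star]
        simp only [Complex.star_def, map_div₀, Complex.conj_I, map_ofNat]
        rw [neg_div, neg_smul, ← smul_neg, neg_sub]) (by
        rw [mul_smul_comm, mul_sub, hpx, hps']) (by
        rw [smul_mul_assoc, sub_mul, hxp, hsp]) (ε / 2) (by linarith)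
    refine ⟨c - Complex.I * d, k + (-Complex.I) • l, Ir.add hk (Ir.smul _ hl), by
      rw [mul_add, mul_smul_comm, hpk, hpl], by rw [add_mul, smul_mul_assoc, hkp, hlp], ?_⟩
    have e1 : x - ((c - Complex.I * d) • p + (k + (-Complex.I) • l)) =
        ((1 / 2 : ℂ) • (x + star x) - (c • p + k)) +
        (-Complex.I) • ((Complex.I / 2 : ℂ) • (x - star x) - (d • p + l)) := by
      have e2 : (-Complex.I) • ((Complex.I / 2 : ℂ) • (x - star x)) =
          (1 / 2 : ℂ) • (x - star x) := by
        rw [smul_smul]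
        congr 1
        have := Complex.I_mul_I
        linear_combination (-1 / 2 : ℂ) * this
      have e3 : (1 / 2 : ℂ) • (x + star x) + (1 / 2 : ℂ) • (x - star x) = x := by
        rw [← smul_add]
        have : x + star x + (x - star x) = (2 : ℂ) • x := by rw [two_smul]; abel
        rw [this, smul_smul]
        norm_num
      have key : ∀ a' b' x' : A, a' + b' = x' →
          x' - ((c - Complex.I * d) • p + (k + (-Complex.I) • l)) =
            (a' - (c • p + k)) + (b' - (-Complex.I) • (d • p + l)) := by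
        rintro a' b' _ rfl
        module
      rw [smul_sub, e2]
      exact key _ _ _ e3
    rw [e1]
    calc _ ≤ ‖(1 / 2 : ℂ) • (x + star x) - (c • p + k)‖ +
          ‖(-Complex.I) • ((Complex.I / 2 : ℂ) • (x - star x) - (d • p + l))‖ := norm_add_le _ _
      _ < ε / 2 + ε / 2 := by
          apply add_lt_add hc
          rw [norm_smul, norm_neg, Complex.norm_I, one_mul]
          exact hd
      _ = ε := by ring
  -- the shift
  obtain ⟨e, f, he, hf, hef, h5, h6, h7, h8⟩ := hSplit A p hpp v a (by rw [hpv, hva])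
  have h9 : cl he = cl hpp := by rw [h7, hpv]
  rw [hEq] at h9
  obtain ⟨s, t, hst, hts, hes, hsp, hpt, hte⟩ := h9
  have hpe : p * e = e := by rw [← hef, add_mul, he, h6, add_zero]
  have hep : e * p = e := by rw [← hef, mul_add, he, h5, add_zero]
  have h10 := hIndex A r p s t hrr hpp hsc hpI (by rw [← hes, ← mul_assoc, hpe]) hsp hpt (by
    rw [← hte, mul_assoc, hep]) hts (happ s (by rw [← hes, ← mul_assoc, hpe]) hsp)
  rw [hst] at h10
  have h11 : f = 0 := by
    have : e + f = e := by rw [hef, h10]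
    simpa using this
  apply ha0
  rw [← h8, hZero]
  exact h11

end Pool.Agent.H494R3.NK
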