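import Pool.Agent.H494R3.NK.RingAsm
import Pool.Agent.H494R3.NK.StarAsm
import Pool.Agent.H494R3.NK.Trans
import Pool.Agent.H494R3.NK.EqZ
import Pool.Agent.H494R3.NK.MatZ
import Pool.Agent.H486R3.NK.TaskDense
import Pool.Agent.H823R3.NK.TaskClose
import Pool.Agent.H380R3.NK.TaskIndex
import Pool.Agent.H720R3.NK.TaskSpectral
import Pool.Agent.H853R3.NK.TaskSplit
import Pool.Agent.H719R4.NK.Sum
import Pool.Agent.H22R3.NK.Mem
import Pool.Agent.H36R3.NK.Dom
import Pool.Agent.H399R6.NKProj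
import Pool.Agent.H996R3.NK.CornerSelf
import Pool.Agent.helper128R3.NK.TaskFred
import Pool.Agent.H798R3.NK.Reg
import Pool.Agent.H481R4.NK.UnitIdeal
import Pool.Agent.H499R3.NK.TaskFin
import Pool.Agent.H449R3.NK.Domain

set_option autoImplicit false

/-!
The main theorem.
-/

namespace Pool.Agent.H494R3.NK

universe u

theorem main_of (hEq0 : TaskEq.{0}) (hZero0 : TaskZero.{0}) (hEq : TaskEq.{u})
    (hZero : TaskZero.{u}) (hDense : TaskDense.{u}) (hMat : TaskMat.{u}) (hClose : TaskClose.{u})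
    (hIndex : TaskIndex.{u}) :
    ∃ (R : Type) (_ : Ring R), (∀ x : R, ∃ y : R, x * y * x = x) ∧
      ∀ (A : Type u) [NonUnitalCStarAlgebra A], RealRankZero A → ¬ Nonempty (VV R ≃+ VV A) := by
  refine ⟨R0, inferInstance, H798R3.NKReg.tReg, ?_⟩
  rintro A _ hr ⟨e⟩
  have h1 : Toep (VV R0) := ringAsm hEq0 H853R3.NK.Split.taskSplit hZero0 H22R3.NK.taskMem
    H481R4.NK.taskUnitIdeal H499R3.NK.taskFin H449R3.NK.taskDomain H449R3.NK.taskAtom
    H449R3.NK.taskShift
  exact starAsm hEq H853R3.NK.Split.taskSplit H719R4.NK.taskSum hZero H22R3.NK.taskMem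
    H36R3.NK.taskDom H399R6.NKProj.taskProj hDense hMat (H996R3.NK.taskCornerSelf hClose) hIndex
    A hr (h1.of_equiv e)

theorem main :
    ∃ (R : Type) (_ : Ring R), (∀ x : R, ∃ y : R, x * y * x = x) ∧
      ∀ (A : Type u) [NonUnitalCStarAlgebra A], RealRankZero A → ¬ Nonempty (VV R ≃+ VV A) :=
  main_of eqZ_eq eqZ_zero eqZ_eq eqZ_zero H486R3.NK.taskDense matZ
    (H823R3.NK.taskClose H720R3.NKSpectral.taskSpectral)
    (H380R3.NK.taskIndex helper128R3.NK.taskFred)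

end Pool.Agent.H494R3.NK
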